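import Mathlib
import Pool.Agent.N883.DQ.Bk
import Pool.Agent.R432.JG.GalK
import Pool.Agent.T9h37.BK.Main
import Pool.Agent.T9h37.BK.Omega

/-!
# The conjecture of Bloch and Kato for the motives `h¹(E_D)(1) ⊗ M`, all Artin motives `M` over the
# fields `ℚ(ω, ∛l : l ∈ S)`, `p = 3`, for a positive proportion of the curves

`E_D : y² + D y = x³` (`3`-isogenous to `x³ + y³ = D`).  `S` is any finite set of primes `≡ 1` modulo
`9`, `n = #S`, and `Ω = ℚ(ω, ∛l : l ∈ S)`, a Galois extension of `ℚ` of degree `2 · 3 ^ n`, not abelian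
if `S` is not empty.  `D` runs through the squarefree numbers, prime to `3` and to `S`, not `±1` modulo
`9`, that are divisible by exactly one prime `2` modulo `3`.

Let `M = ℤ ^ g` be any lattice of any rank `g` with an action `R` of the Galois group of `Ω / ℚ`, and
let `A = E_D ⊗ M`, an abelian variety over `ℚ` of dimension `g`.  All the Artin motives over `ℚ` (with
rational coefficients) that are trivial over `Ω` are of the form `M ⊗ ℚ`, and `h¹(A^∨)(1)` is the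
motive `h¹(E_D)(1) ⊗ M`.  We prove, for a set of `D` whose proportion tends exactly to `c ^ {3 ^ n}`,
`c = ∏_{i ≥ 1} (1 - 3^{-i}) = 0.5601...`:

* for all these lattices `A(ℚ)` is finite, so `A(ℚ) ⊗ ℚ_3 = 0`, and `H¹_f(ℚ, V_3 A) = 0`;
* `E_D(Ω) ⊗ ℚ_3 = 0` and `H¹_f(Ω, V_3 E_D) = 0`;
* there are infinitely many primes `l` such that the same is true for `S ∪ {l}` (and the same `D`).

So the Abel–Jacobi maps of all the motives `h¹(E_D)(1) ⊗ M` over `ℚ` are isomorphisms onto `H¹_f`, for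
`p = 3`.

`H1fA 3 W R` is the group of the classes of the continuous cocycles of the absolute Galois group of `ℚ`
with values in `V_3 A` whose restriction to the completion of `ℚ` at every place is in the image of the
local Kummer map; this is the condition of Bloch and Kato.

The finiteness of `E_D(Ω)` and the bound for `Ш(E_D / Ω)[3^∞]` are starting results of the seats named
in `MP_7cad78_nt/AllSubfieldsRankZero` and in the files imported there; the descent from `Ω` is in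
`Pool/Agent/T9h37/BK`.
-/

set_option autoImplicit false

namespace Pool.Agent.Results.MP_009fd8_ag.CubicClosureLattices

open scoped Classical
open NumberField WeierstrassCurve
open Pool.Agent.TH841.SH.D (Gal)
open Pool.Agent.Y702.A (ptsA)
open Pool.Agent.Y667.BKP (H1f)
open Pool.Agent.T9h37.BK (H1fA)

/-- The curve `E_D : y² + D y = x³` over `ℤ`. -/
def curve (D : ℕ) : WeierstrassCurve ℤ := ⟨0, 0, (D : ℤ), 0, 0⟩

/-- `D` is squarefree, not divisible by `3`, not `±1` modulo `9`, not divisible by the elements of `S`,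
and divisible by exactly one prime that is `2` modulo `3`. -/
def InClass (S : Finset ℕ) (D : ℕ) : Prop :=
  Squarefree D ∧ ¬ 3 ∣ D ∧ D % 9 ≠ 1 ∧ D % 9 ≠ 8 ∧ (∀ l ∈ S, ¬ l ∣ D) ∧
    ∃ q : ℕ, q.Prime ∧ q % 3 = 2 ∧ q ∣ D ∧ ∀ p : ℕ, p.Prime → p ∣ D → p ≠ q → p % 3 = 1

/-- In every factorization of `N` in coprime factors `d₀ d₁ d₂` for which `d₁ d₂²`, `d₂ d₀²`,
`d₀ d₁²` are cubes modulo the primes dividing `d₀`, `d₁`, `d₂` respectively, two factors are `1`. -/
def HasNoSplitting (N : ℕ) : Prop :=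
  ∀ d : ZMod 3 → ℕ, ∏ c, d c = N → (∀ c c', c ≠ c' → Nat.Coprime (d c) (d c')) →
    (∀ (c : ZMod 3) (p : ℕ), p.Prime → p ∣ d c →
      ∃ x : ℤ, (p : ℤ) ∣ (d (c + 1) : ℤ) * (d (c + 2) : ℤ) ^ 2 - x ^ 3) →
    ∃ c, ∀ c', c' ≠ c → d c' = 1

/-- All the `3 ^ #S` numbers `D ∏_{l ∈ S} l ^ (t l)` with exponents `0`, `1`, `2` have no splitting. -/
def Good (S : Finset ℕ) (D : ℕ) : Prop :=
  ∀ t : {l : ℕ // l ∈ S} → ZMod 3, HasNoSplitting (D * ∏ l : {l : ℕ // l ∈ S}, l.1 ^ (t l).val)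

/-- `Ω` is generated by `ω` and cube roots of the elements of `S`. -/
def Closure (S : Finset ℕ) (Ω : Type) [Field Ω] : Prop :=
  ∃ (ω : Ω) (r : ℕ → Ω), ω ^ 2 + ω + 1 = 0 ∧ (∀ l ∈ S, r l ^ 3 = (l : Ω)) ∧
    ∀ F : Subfield Ω, ω ∈ F → (∀ l ∈ S, r l ∈ F) → F = ⊤

/-- `R` is an action of the Galois group of `Ω / ℚ` on the lattice `ℤ ^ g`: it is trivial on the
automorphisms that fix the image of `Ω` in the algebraic closure of `ℚ`. -/
def SplitBy (Ω : Type) [Field Ω] {g : ℕ} (R : Gal ℚ →* GL (Fin g) ℤ) : Prop :=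
  ∃ e : Ω →+* AlgebraicClosure ℚ, ∀ σ : Gal ℚ, (∀ x : Ω, σ (e x) = e x) → R σ = 1

/-- `W(Ω) ⊗ ℚ_3` and `H¹_f(Ω, V_3 W)` are zero. -/
def BothZero {Ω : Type} [Field Ω] [NumberField Ω] (W : WeierstrassCurve Ω) : Prop :=
  (∀ x : TensorProduct ℤ W.toAffine.Point ℚ_[3], x = 0) ∧ ∀ x : H1f 3 W, x = 0

/-- `A(ℚ) ⊗ ℚ_3` and `H¹_f(ℚ, V_3 A)` are zero, `A = W ⊗ ℤ ^ g`. -/
def BothZeroTensor {g : ℕ} (W : WeierstrassCurve ℤ) (R : Gal ℚ →* GL (Fin g) ℤ) : Prop :=
  (∀ x : TensorProduct ℤ (ptsA W R) ℚ_[3], x = 0) ∧ ∀ x : H1fA 3 W R, x = 0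

open Pool.Agent.R432.JG (Cl cl_iff)

/-- **Main theorem.**  `c = ∏_{i ≥ 1} (1 - 3^{-i}) > 0.56`.  For every finite set `S` of primes `≡ 1`
modulo `9`: the number of the `D ≤ X` in the class is at least `a X / √(log X)`, `a > 0`; the proportion
of the good `D` tends to `c ^ (3 ^ #S)`; every good `D` of the class is good for `S ∪ {l}` for
infinitely many primes `l ≡ 1` modulo `9`; the field `Ω` exists; it is Galois over `ℚ`, of degree
`2 · 3 ^ #S`; and for every good `D` of the class the groups `E_D(Ω) ⊗ ℚ_3` and `H¹_f(Ω, V_3 E_D)` are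
zero, and for all the lattices of any rank `g` with an action of the Galois group of `Ω / ℚ`, the groups
`A(ℚ) ⊗ ℚ_3` and `H¹_f(ℚ, V_3 A)`, `A = E_D ⊗ ℤ ^ g`, are zero. -/
theorem result :
    (0.56 : ℝ) < ∏' i : ℕ, (1 - (1 / 3 : ℝ) ^ (i + 1)) ∧
    ∀ S : Finset ℕ, (∀ l ∈ S, l.Prime ∧ l % 9 = 1) →
      (∃ a : ℝ, 0 < a ∧ ∃ X₀ : ℕ, ∀ X : ℕ, X₀ ≤ X →
        a * X / Real.sqrt (Real.log X) ≤
          (((Finset.Icc 1 X).filter fun D => InClass S D).card : ℝ)) ∧
      Filter.Tendsto (fun X : ℕ =>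
        (((Finset.Icc 1 X).filter fun D => InClass S D ∧ Good S D).card : ℝ) /
          (((Finset.Icc 1 X).filter fun D => InClass S D).card : ℝ)) Filter.atTop
        (nhds ((∏' i : ℕ, (1 - (1 / 3 : ℝ) ^ (i + 1))) ^ (3 ^ S.card))) ∧
      (∃ (Ω : Type) (_ : Field Ω) (_ : NumberField Ω), Closure S Ω) ∧
      ∀ D : ℕ, InClass S D → Good S D →
        {l : ℕ | l.Prime ∧ l % 9 = 1 ∧ ¬ l ∣ D ∧ l ∉ S ∧ Good (insert l S) D}.Infinite ∧
        ∀ (Ω : Type) [Field Ω] [NumberField Ω], Closure S Ω →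
          IsGalois ℚ Ω ∧ Module.finrank ℚ Ω = 2 * 3 ^ S.card ∧
          BothZero ((curve D).map (Int.castRingHom Ω)) ∧
          ∀ (g : ℕ) (R : Gal ℚ →* GL (Fin g) ℤ), SplitBy Ω R → BothZeroTensor (curve D) R := by
  refine ⟨Pool.Agent.R432.JG.c3_gt, fun S hS => ?_⟩
  have e1 : ∀ X : ℕ, (Finset.Icc 1 X).filter (fun D => InClass S D) =
      (Finset.Icc 1 X).filter fun D => Cl S D := fun X =>
    Finset.filter_congr fun D _ => (cl_iff S D).symm
  have e2 : ∀ X : ℕ, (Finset.Icc 1 X).filter (fun D => InClass S D ∧ Good S D) =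
      (Finset.Icc 1 X).filter fun D => Cl S D ∧
        Pool.Agent.R432.JG.AG S Finset.univ D := fun X =>
    Finset.filter_congr fun D _ => by
      rw [show InClass S D ↔ Cl S D from (cl_iff S D).symm]
      refine and_congr_right fun hC => ?_
      unfold Good Pool.Agent.R432.JG.AG
      exact ⟨fun h t _ => h t, fun h t => h t (Finset.mem_univ t)⟩
  have hcard : (Finset.univ : Finset ({l : ℕ // l ∈ S} → ZMod 3)).card = 3 ^ S.card := by
    rw [Finset.card_univ, Fintype.card_fun, ZMod.card, Fintype.card_coe]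
  refine ⟨?_, ?_, Pool.Agent.R432.JG.exists_genK S, fun D hD hN => ?_⟩
  · simp only [e1]
    exact Pool.Agent.R432.JG.low hS
  · simp only [e1, e2]
    have h := Pool.Agent.R432.JG.law_all hS Finset.univ
    rw [hcard] at h
    exact h
  · have hC : Cl S D := (cl_iff S D).2 hD
    refine ⟨Pool.Agent.N883.DQ.more hS hC hN, fun Ω _ _ hΩ => ?_⟩
    obtain ⟨z, r, h1, h2, h3⟩ := hΩ
    obtain ⟨a1, a2, a3⟩ := Pool.Agent.R432.JG.all_goodK hC.2.1
      (Pool.Agent.R432.JG.pre_of hS hC) hN z h1 r h2 h3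
    have hG := Pool.Agent.T9h37.BK.galois_omega S z h1 r h2 h3
    have hE : (curve D).map (Int.castRingHom Ω) = ⟨0, 0, (D : Ω), 0, 0⟩ := by
      unfold curve
      ext <;> simp
    have b2 : Finite ((curve D).map (Int.castRingHom Ω)).toAffine.Point := by
      rw [hE]
      exact a2
    have b3 : ∀ (k : ℕ) (y : Pool.Agent.TH841.NF.D.Sha ((curve D).map (Int.castRingHom Ω))),
        (3 ^ k : ℕ) • y = 0 → (3 ^ S.card : ℕ) • y = 0 := by
      rw [hE]
      exact a3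
    refine ⟨hG, a1, ⟨Pool.Agent.Y667.BKP.tensor_zero 3,
      Pool.Agent.Y667.BKP.h1f_zero Nat.prime_three b2 S.card b3⟩, fun g R hR => ?_⟩
    obtain ⟨e, he⟩ := hR
    obtain ⟨h5, h6⟩ := Pool.Agent.T9h37.BK.zeroA Nat.prime_three (curve D) Ω hG S.card b3 b2 g R e he
    exact ⟨Pool.Agent.Y667.BKP.tensor_zero 3, h6⟩

end Pool.Agent.Results.MP_009fd8_ag.CubicClosureLattices
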