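import Mathlib
import Pool.Agent.R425.D.Thm
import Pool.Agent.N922.PQ.Final2
import Pool.Agent.N922.PQ.Unr
import Pool.Agent.T9h37.BK.Main
import Pool.Agent.T9h30.BF.Brg
import Pool.Agent.T9h30.BF.Ab3
import Pool.Agent.T9h73.BF.Cyc

/-!
# The conjecture of Bloch and Kato for `h¹(E)(1) ⊗ M`, a positive proportion of ALL elliptic curves `E`
# over `ℚ` and, for each of them, infinitely many towers of Galois 2-extensions, `p = 2`

Let `E` be an elliptic curve over `ℚ` with trivial 2-Selmer group over `ℚ`.  We say that the number field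
`K` belongs to the class of `E` if `K / ℚ` is Galois of degree a power of two (it need not be abelian),
ramified only at primes `l` of good reduction such that the number of points of `E` over `ℤ/l` is odd, if the
primes dividing `2 Δ` split completely in `K`, and if `K` is totally real in the case `Δ > 0`.

Theorem.
(1) For all `E` with trivial 2-Selmer group over `ℚ` and all `K` of the class of `E`:
`E(K) ⊗ ℚ_2 = 0 = H¹_f(K, V_2 E)`, and for all lattices `ℤ ^ g` of any rank `g` with an action of the Galois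
group of `K / ℚ`, `A = E ⊗ ℤ ^ g`, `A(ℚ) ⊗ ℚ_2 = 0 = H¹_f(ℚ, V_2 A)`.
(2) A positive proportion of ALL the elliptic curves `E` over `ℚ`, ordered by height, has trivial 2-Selmer
group over `ℚ`, so that (1) holds for ALL `K` of the class of `E` at the same time; and for every `N` there is a
set `P` of primes `1` modulo `2 ^ (N + 1)`, of positive lower density, such that for every `l` in `P` the class of `E`
contains a cyclic field of degree `2 ^ N` ramified only at `l`, and such that all the subfields `K` of the fields of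
`m`-th roots of unity, `m` a product of different elements of `P`, with `2 ^ N` killing the Galois group of `K / ℚ`,
are in the class of `E`.

Every Artin motive over `ℚ` with rational coefficients that is trivial over `K` is of the form
`ℚ ⊗ ℤ ^ g`, and `h¹(A^∨)(1)` is the motive `h¹(E)(1) ⊗ M`.  So the Abel–Jacobi map of this motive is an
isomorphism onto `H¹_f`, for `p = 2`.

Part (1) and its proof are by helper37 (formerly the hand-in `TwoExtensionLattices`).  For (2): a positive
proportion of all `E / ℚ` has trivial 2-Selmer group (`Pool/Agent/N922/PQ`, project PQ / PV of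
helper922); for such an `E`, given by `y² = x³ + A x + B`, the polynomial has no rational zero, and by a
theorem of Chebotarev type (`Pool/Agent/T9h30/BT`, `PG`, `TP`) there are, with positive density, primes
`l = 1` modulo `2 ^ (N + 1)` with an odd number of points modulo `l` for which all the bad primes and `2` are
`2 ^ (N + 1)`-th powers modulo `l`; the fields are subfields of the fields of `m`-th
roots of unity (`Pool/Agent/T9h30/BF/Ab2.lean`, `Pool/Agent/T9h73/BF/Cyc.lean`, by helper73, and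
`Pool/Agent/T9h89/BF/Split.lean`, by helper89; two group theoretic lemmas by helper70).  The starting library
contains the statement on `E(K)` and `Ш(E/K)` for one fixed field and a positive proportion of the curves
(`PQ`), and for one fixed curve and all fields of its class (`R425`).
-/

set_option autoImplicit false
set_option linter.all false

open IsDedekindDomain NumberField WeierstrassCurve Filter

open scoped Classical

namespace Pool.Agent.Results.MP_009fd8_ag.ManyCurvesManyFields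

open Pool.Agent.TH841.NF.D (Sha)
open Pool.Agent.TH841.SH.D (Gal)
open Pool.Agent.Y702.A (ptsA)
open Pool.Agent.Y667.BKP (H1f)
open Pool.Agent.T9h37.BK (H1fA)

/-! ### The class of the fields -/

/-- The 2-Selmer group of `W` over `ℚ` is trivial: `W(ℚ)` is finite of odd order and `Ш(W/ℚ)` has no
element of order two. -/
def TrivialTwoSelmer (W : WeierstrassCurve ℤ) : Prop :=
  Finite (W.map (Int.castRingHom ℚ)).toAffine.Point ∧
  Odd (Nat.card (W.map (Int.castRingHom ℚ)).toAffine.Point) ∧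
  ∀ s : Sha (W.map (Int.castRingHom ℚ)), 2 • s = 0 → s = 0

/-- The number of the points of `W` over `ℤ/l`, with the point at infinity. -/
noncomputable def pointCount (W : WeierstrassCurve ℤ) (l : ℕ) : ℕ :=
  Nat.card {P : ZMod l × ZMod l //
    (W.map (Int.castRingHom (ZMod l))).toAffine.Equation P.1 P.2} + 1

/-- `K` is a Galois extension of `ℚ` of degree a power of two, ramified only at primes `l ∤ 2 Δ` such
that the number of the points of the curve over `ℤ/l` is odd; the prime ideals containing `2 Δ` have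
residue degree one (and, `K` being Galois and unramified at them, these primes split completely); and
if the discriminant is positive then `K` is totally real. -/
structure IsTwoExtension (W : WeierstrassCurve ℤ) (K : Type) [Field K] [NumberField K] : Prop where
  galois : IsGalois ℚ K
  degree : ∃ j, Module.finrank ℚ K = 2 ^ j
  ramified : ∀ l : ℕ, l.Prime → (l : ℤ) ∣ NumberField.discr K →
    ¬ (l : ℤ) ∣ 2 * W.Δ ∧ Odd (pointCount W l)
  split : ∀ v : HeightOneSpectrum (𝓞 K), ((2 * W.Δ : ℤ) : 𝓞 K) ∈ v.asIdeal →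
    (Ideal.absNorm v.asIdeal).Prime
  real : 0 < W.Δ → ∀ v : InfinitePlace K, v.IsReal

/-- The lower density of the set `P` in the set of the primes is positive. -/
def PositiveDensity (P : Set ℕ) : Prop :=
  ∃ d : ℝ, 0 < d ∧ ∀ᶠ X : ℕ in atTop, d * Nat.primeCounting X ≤ {l : ℕ | l ≤ X ∧ l ∈ P}.ncard

/-- For every `N` there is a set `P` of primes `1` modulo `2 ^ (N + 1)`, of positive lower density in the set
of the primes, such that for every `l` in `P` the class of `W` contains a cyclic extension of `ℚ` of degree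
`2 ^ N` ramified only at `l`, and such that every subfield `K` of a field of `m`-th roots of unity, `m` a
product of different elements of `P`, for which the Galois group of `K / ℚ` is killed by `2 ^ N`, belongs to
the class of `W`. -/
def ManyFields (W : WeierstrassCurve ℤ) : Prop :=
  ∀ N : ℕ, ∃ P : Set ℕ, PositiveDensity P ∧ (∀ l ∈ P, l.Prime ∧ l % 2 ^ (N + 1) = 1 ∧
    ∃ (K : Type) (_ : Field K) (_ : NumberField K), IsTwoExtension W K ∧
      IsCyclic (K ≃ₐ[ℚ] K) ∧ Module.finrank ℚ K = 2 ^ N ∧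
      ∀ q : ℕ, q.Prime → (q : ℤ) ∣ NumberField.discr K → q = l) ∧
    ∀ S : Finset ℕ, (∀ l ∈ S, l ∈ P) → ∀ (K : Type) [Field K] [NumberField K],
      Nonempty (K →ₐ[ℚ] CyclotomicField (∏ l ∈ S, l) ℚ) → (∀ t : K ≃ₐ[ℚ] K, t ^ 2 ^ N = 1) →
        IsTwoExtension W K

/-! ### The two sides of the conjecture -/

/-- `R` is an action of the Galois group of `K / ℚ` on the lattice `ℤ ^ g`: it is trivial on the
automorphisms that fix the image of `K` in the algebraic closure of `ℚ`. -/
def SplitBy (K : Type) [Field K] {g : ℕ} (R : Gal ℚ →* GL (Fin g) ℤ) : Prop :=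
  ∃ e : K →+* AlgebraicClosure ℚ, ∀ σ : Gal ℚ, (∀ x : K, σ (e x) = e x) → R σ = 1

/-- `W(K) ⊗ ℚ_2` and `H¹_f(K, V_2 W)` are zero. -/
def BothZero {K : Type} [Field K] [NumberField K] (W : WeierstrassCurve K) : Prop :=
  (∀ x : TensorProduct ℤ W.toAffine.Point ℚ_[2], x = 0) ∧ ∀ x : H1f 2 W, x = 0

/-- `A(ℚ) ⊗ ℚ_2` and `H¹_f(ℚ, V_2 A)` are zero, `A = W ⊗ ℤ ^ g`. -/
def BothZeroTensor {g : ℕ} (W : WeierstrassCurve ℤ) (R : Gal ℚ →* GL (Fin g) ℤ) : Prop :=
  (∀ x : TensorProduct ℤ (ptsA W R) ℚ_[2], x = 0) ∧ ∀ x : H1fA 2 W R, x = 0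

/-- Both sides of the conjecture are zero for `W` over `K` and for all `A = W ⊗ ℤ ^ g` over `ℚ` with an
action of the Galois group of `K / ℚ`, for ALL the fields `K` of the class of `W`. -/
def AllFields (W : WeierstrassCurve ℤ) : Prop :=
  ∀ (K : Type) [Field K] [NumberField K], IsTwoExtension W K →
    BothZero (W.map (Int.castRingHom K)) ∧
    ∀ (g : ℕ) (R : Gal ℚ →* GL (Fin g) ℤ), SplitBy K R → BothZeroTensor W R

/-- The curve `y² = x³ - 13392 x - 1080432`, a short equation of `X_0(11)`. -/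
def X11 : WeierstrassCurve ℤ := ⟨0, 0, 0, -13392, -1080432⟩

/-! ### The elliptic curves over `ℚ` -/

/-- The equation `y ^ 2 = x ^ 3 + A x + B` with integers `A`, `B` defines an elliptic curve, and
there is no prime `p` with `p ^ 4 ∣ A` and `p ^ 6 ∣ B`.  Every elliptic curve over `ℚ` is isomorphic to
exactly one of these. -/
structure IsMinimal (A B : ℤ) : Prop where
  elliptic : 4 * A ^ 3 + 27 * B ^ 2 ≠ 0
  minimal : ∀ p : ℕ, p.Prime → ¬ ((p : ℤ) ^ 4 ∣ A ∧ (p : ℤ) ^ 6 ∣ B)

/-- The height. -/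
def height (p : ℤ × ℤ) : ℤ := max (4 * |p.1| ^ 3) (27 * p.2 ^ 2)

/-- The set of all elliptic curves over `ℚ` of height at most `X`. -/
def Curves (X : ℕ) : Set (ℤ × ℤ) := {p | IsMinimal p.1 p.2 ∧ height p ≤ X}

/-- The equation `y ^ 2 = x ^ 3 + A x + B`. -/
def curve (p : ℤ × ℤ) : WeierstrassCurve ℤ := ⟨0, 0, 0, p.1, p.2⟩

/-! ### Proofs -/

theorem crv_iff (X : ℕ) (p : ℤ × ℤ) : Pool.Agent.N922.PQ.Crv X p.1 p.2 ↔ p ∈ Curves X := by
  constructor
  · rintro ⟨h1, h2, h3, h4⟩
    exact ⟨⟨h1, h2⟩, max_le h3 h4⟩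
  · rintro ⟨⟨h1, h2⟩, h3⟩
    exact ⟨h1, h2, (le_max_left _ _).trans h3, (le_max_right _ _).trans h3⟩

theorem nonempty {X : ℕ} (hX : 27 ≤ X) : ((1, 1) : ℤ × ℤ) ∈ Curves X := by
  refine ⟨⟨by norm_num, ?_⟩, ?_⟩
  · rintro p hp ⟨h, -⟩
    have h1 : ((p : ℤ)) ∣ 1 := (dvd_pow_self (p : ℤ) (by norm_num)).trans h
    have h2 : p ∣ 1 := by exact_mod_cast h1
    exact hp.one_lt.ne' (Nat.dvd_one.1 h2)
  · have : height ((1, 1) : ℤ × ℤ) = 27 := by
      simp [height]
    rw [this]
    exact_mod_cast hX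

theorem all_of (W : WeierstrassCurve ℤ) (hΔ : W.Δ ≠ 0) (hT : TrivialTwoSelmer W) : AllFields W := by
  intro K _ _ hK
  have hK' : Pool.Agent.R425.D.TwoExt (fun _ : Fin 1 => W) K := by
    refine ⟨hK.galois, hK.degree, fun l hl hd => ?_, fun v hv => hK.split v ?_,
      fun _ h => hK.real h⟩
    · obtain ⟨h1, h2⟩ := hK.ramified l hl hd
      refine ⟨by simpa using h1, fun _ => h2⟩
    · simpa using hv
  obtain ⟨h1, h2, -⟩ := hK'.sel (fun _ => hΔ) (fun _ => hT) 0
  have key : ∀ (k : ℕ) (s : Sha (W.map (Int.castRingHom K))), (2 ^ k : ℕ) • s = 0 →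
      (2 ^ 0 : ℕ) • s = 0 := by
    intro k s hs
    rw [Pool.Agent.Y65.Sham.no_two h1 k s hs, smul_zero]
  have h2' : Finite (W.map (Int.castRingHom K)).toAffine.Point := h2
  refine ⟨⟨Pool.Agent.Y667.BKP.tensor_zero 2, Pool.Agent.Y667.BKP.h1f_zero Nat.prime_two h2' 0 key⟩,
    fun g R hR => ?_⟩
  obtain ⟨e, he⟩ := hR
  obtain ⟨h3, h4⟩ := Pool.Agent.T9h37.BK.zeroA Nat.prime_two W K hK.galois 0 key h2' g R e he
  exact ⟨Pool.Agent.Y667.BKP.tensor_zero 2, h4⟩

theorem many_of (p : ℤ × ℤ) (hΔ : 4 * p.1 ^ 3 + 27 * p.2 ^ 2 ≠ 0)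
    (hT : TrivialTwoSelmer (curve p)) : ManyFields (curve p) := by
  intro N
  refine ⟨Pool.Agent.T9h30.BF.P2 p.1 p.2 N, Pool.Agent.T9h30.BF.dens2 hΔ
    (Pool.Agent.T9h30.BF.no_root hΔ hT.2.1) N, fun l hlP => ?_, fun S hS K _ _ hK hexp => ?_⟩
  · obtain ⟨hl, hl1, h1, h2⟩ := Pool.Agent.T9h30.BF.good2 hΔ hlP
    obtain ⟨K, i1, i2, hG, hcy, hdeg, hram, hspl, hreal⟩ :=
      Pool.Agent.T9h30.BF.one2 Pool.Agent.T9h73.BF.cyc hΔ hlP
    refine ⟨hl, hl1, K, i1, i2, ⟨hG, ⟨N, hdeg⟩, fun q hq hqd => ?_, hspl, fun _ => hreal⟩, hcy,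
      hdeg, hram⟩
    rw [hram q hq hqd]
    exact ⟨h1, h2⟩
  · obtain ⟨hG, hdeg, hram, hspl, hreal⟩ := Pool.Agent.T9h30.BF.ab2 hΔ N S hS K hK hexp
    refine ⟨hG, hdeg, fun q hq hqd => ?_, hspl, fun _ => hreal⟩
    obtain ⟨-, -, h1, h2⟩ := Pool.Agent.T9h30.BF.good2 hΔ (hS q (hram q hq hqd))
    exact ⟨h1, h2⟩

theorem gal_rat : @IsGalois ℚ _ ℚ _ DivisionRing.toRatAlgebra := by
  have h : (DivisionRing.toRatAlgebra : Algebra ℚ ℚ) = Algebra.id ℚ := Subsingleton.elim _ _
  rw [h]
  exact IsGalois.self ℚ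

theorem two_sq (𝔭 : Ideal (𝓞 ℚ)) (hp : 𝔭.IsPrime) : (2 : 𝓞 ℚ) ∉ 𝔭 ^ 2 := by
  intro h
  have h1 := Ideal.absNorm_dvd_absNorm_of_le ((Ideal.span_singleton_le_iff_mem _).2 h)
  have e : (2 : 𝓞 ℚ) = ((2 : ℕ) : 𝓞 ℚ) := by norm_num
  rw [e, Ideal.absNorm_span_natCast, NumberField.RingOfIntegers.rank, Module.finrank_self,
    pow_one, map_pow] at h1
  have h2 : Ideal.absNorm 𝔭 = 1 := by
    have h3 : Ideal.absNorm 𝔭 ^ 2 ≤ 2 := Nat.le_of_dvd (by norm_num) h1
    have h4 : Ideal.absNorm 𝔭 ≤ 1 := by nlinarith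
    interval_cases h5 : Ideal.absNorm 𝔭
    · norm_num at h1
    · rfl
  exact hp.ne_top (Ideal.absNorm_eq_one_iff.1 h2)

/-- from the library theorem to the conclusion -/
theorem triv_of (p : ℤ × ℤ)
    (h1 : Subsingleton (Pool.Agent.TH115.GD.Pt (Pool.Agent.N874.PP.sW (p.1 : ℚ) (p.2 : ℚ)) ℚ))
    (h2 : Pool.Agent.N874.PM.ShaR (𝓞 ℚ) (Pool.Agent.N874.PP.sW (p.1 : ℚ) (p.2 : ℚ))) :
    TrivialTwoSelmer (curve p) := by
  have e1 : Pool.Agent.N874.PP.sW (p.1 : ℚ) (p.2 : ℚ) = (curve p).map (Int.castRingHom ℚ) := by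
    apply WeierstrassCurve.ext <;> simp [Pool.Agent.N874.PP.sW, curve]
  rw [e1] at h1 h2
  have e2 : ((curve p).map (Int.castRingHom ℚ)).baseChange ℚ = (curve p).map (Int.castRingHom ℚ) := by
    apply WeierstrassCurve.ext <;> simp [WeierstrassCurve.baseChange, curve]
  have h3 : Subsingleton ((curve p).map (Int.castRingHom ℚ)).toAffine.Point := by
    have key : ∀ W' : WeierstrassCurve ℚ,
        ((curve p).map (Int.castRingHom ℚ)).baseChange ℚ = W' → Subsingleton W'.toAffine.Point := by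
      rintro W' rfl
      exact h1
    exact key _ e2
  refine ⟨inferInstance, ?_, fun s hs => ?_⟩
  · rw [Nat.card_unique]
    exact odd_one
  · exact Pool.Agent.T9h30.BF.brg h2 1 s (by rw [pow_one]; exact hs)

/-- **Main theorem.**  (1) For all `W` with trivial 2-Selmer group over `ℚ` and all the fields `K` of the
class of `W` both sides of the conjecture are zero for `W` over `K` and for all the `A = W ⊗ ℤ ^ g`
over `ℚ` with an action of the Galois group of `K / ℚ`; the curve `X_0(11)` is an example.  (2) There is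
`c > 0` such that for all large `X` at least `c` times the number of all elliptic curves over `ℚ` of height at
most `X` have trivial 2-Selmer group over `ℚ`, many fields in their class (`ManyFields`, for every `N` all the
abelian extensions of exponent `2 ^ N` with ramification in a set `P` of primes of positive lower density), and
both sides zero for all the fields of their class at the same time. -/
theorem result :
    (∀ W : WeierstrassCurve ℤ, W.Δ ≠ 0 → TrivialTwoSelmer W → AllFields W) ∧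
    (X11.Δ ≠ 0 ∧ TrivialTwoSelmer X11) ∧
    (∀ X : ℕ, (Curves X).Finite) ∧
    ∃ c : ℝ, 0 < c ∧ ∀ᶠ X : ℕ in atTop,
      0 < (Curves X).ncard ∧
      c * ((Curves X).ncard : ℝ) ≤ (({p ∈ Curves X | TrivialTwoSelmer (curve p) ∧
        ManyFields (curve p) ∧ AllFields (curve p)}).ncard : ℝ) := by
  have hset : ∀ X : ℕ, Curves X = {p : ℤ × ℤ | Pool.Agent.N922.PQ.Crv X p.1 p.2} := by
    intro X
    ext p
    exact (crv_iff X p).symm
  have hfin : ∀ X : ℕ, (Curves X).Finite := fun X => by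
    rw [hset]
    exact Pool.Agent.N922.PQ.crv_fin X
  refine ⟨all_of, ⟨Pool.Agent.R425.D.disc11, Pool.Agent.R425.D.sel11s⟩, hfin, ?_⟩
  haveI := gal_rat
  obtain ⟨c, hc, X₀, h⟩ := Pool.Agent.N922.PQ.finalV ℚ (𝓞 ℚ) (n := 0)
    (by rw [Module.finrank_self, pow_zero]) (Pool.Agent.N922.PQ.val_two_of two_sq)
  refine ⟨c, hc, ?_⟩
  filter_upwards [eventually_ge_atTop (max X₀ 27)] with X hX
  refine ⟨(Set.ncard_pos (hfin X)).2 ⟨_, nonempty ((le_max_right _ _).trans hX)⟩, ?_⟩
  have h1 := (h X ((le_max_left _ _).trans hX)).2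
  rw [← hset] at h1
  refine h1.trans ?_
  have h3 : {p : ℤ × ℤ | Pool.Agent.N922.PQ.Crv X p.1 p.2 ∧
      Pool.Agent.N922.PQ.GoodV (M := ℚ) (𝓞 ℚ) p} ⊆ {p ∈ Curves X | TrivialTwoSelmer (curve p) ∧
        ManyFields (curve p) ∧ AllFields (curve p)} := by
    rintro p ⟨hp, -, hd, hsha⟩
    have hT : TrivialTwoSelmer (curve p) := triv_of p hd hsha
    have hp' := (crv_iff X p).1 hp
    have hΔ : 4 * p.1 ^ 3 + 27 * p.2 ^ 2 ≠ 0 := hp'.1.elliptic
    have hΔ' : (curve p).Δ ≠ 0 := by
      show (⟨0, 0, 0, p.1, p.2⟩ : WeierstrassCurve ℤ).Δ ≠ 0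
      rw [Pool.Agent.T9h30.BF.disc_eq]
      exact mul_ne_zero (by norm_num) hΔ
    exact ⟨hp', hT, many_of p hΔ hT, all_of _ hΔ' hT⟩
  have h4 := Set.ncard_le_ncard h3 ((hfin X).subset fun p hp => hp.1)
  exact_mod_cast h4

end Pool.Agent.Results.MP_009fd8_ag.ManyCurvesManyFields
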