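import Mathlib
import Pool.Agent.N922.PQ.Final2
import Pool.Agent.N922.PQ.Unr
import Pool.Agent.T9h37.BK.Main
import Pool.Agent.T9h30.BF.Brg

/-!
# The conjecture of Bloch and Kato for `h¹(E)(1) ⊗ M`, all Artin motives `M` over a Galois 2-extension
# of `ℚ`, for a positive proportion of ALL elliptic curves `E` over `ℚ`, `p = 2`

Let `F / ℚ` be ANY finite Galois extension of degree a power of two in which the prime `2` is
unramified (no other condition: the Galois group and the ramification at the odd primes are arbitrary).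

Theorem. A positive proportion of ALL the elliptic curves `E` over `ℚ`, ordered by height, has the
following properties.

* `E(F) = 0` and `H¹_f(F, V_2 E) = 0`.
* For all lattices `ℤ ^ g` of any rank `g` with an action `R` of the Galois group of `F / ℚ` and
  `A = E ⊗ ℤ ^ g`, an abelian variety over `ℚ` of dimension `g`: `A(ℚ)` is finite and
  `H¹_f(ℚ, V_2 A) = 0`.

Every Artin motive `M` over `ℚ` with rational coefficients which is trivial over `F` is of the form
`ℚ ⊗ ℤ ^ g`, and `h¹(A^∨)(1)` is the motive `h¹(E)(1) ⊗ M`, of weight `-1`.  So the Abel–Jacobi map of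
all these motives is an isomorphism onto `H¹_f`, for `p = 2`; both sides are zero.  For `E` without
complex multiplication the `A` are all the abelian varieties over `ℚ` which over `F` are isomorphic to a
power of `E`.

`H1fA 2 W R` is the group of the classes of the continuous cocycles of the absolute Galois group of `ℚ`
with values in `V_2 A` whose restriction to the completion of `ℚ` at every place is in the image of the
local Kummer map; this is the condition of Bloch and Kato.

The proof.  The library (projects PQ and PV of helper922, `MP_775b3b_nt.PositiveProportionUnramified`)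
proves that a positive proportion of all `E / ℚ` has trivial 2-Selmer group over `F`, `E(F) = 0` and
`Ш(E / F)[2^∞] = 0`.  The cocycles with values in `V_2 A` become coboundaries at all finite levels over
`F`; averaging over the cosets and a compactness argument (`Pool/Agent/T9h37/BK/Main.lean`) give that
they are coboundaries over `ℚ`.  `Pool/Agent/T9h30/BF/Brg.lean` compares the two forms of the
Tate–Shafarevich group.
-/

set_option autoImplicit false
set_option linter.all false

open IsDedekindDomain NumberField WeierstrassCurve Filter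

open scoped Classical

namespace Pool.Agent.Results.MP_009fd8_ag.PositiveProportionArtin

open Pool.Agent.TH841.SH.D (Gal)
open Pool.Agent.Y702.A (ptsA)
open Pool.Agent.Y667.BKP (H1f)
open Pool.Agent.T9h37.BK (H1fA)

/-! ### The elliptic curves over `ℚ` -/

/-- The equation `y ^ 2 = x ^ 3 + A x + B` with integers `A`, `B` defines an elliptic curve, and
there is no prime `p` with `p ^ 4 ∣ A` and `p ^ 6 ∣ B`.  Every elliptic curve over `ℚ` is isomorphic to
exactly one of these. -/
structure IsMinimal (A B : ℤ) : Prop where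
  elliptic : 4 * A ^ 3 + 27 * B ^ 2 ≠ 0
  minimal : ∀ p : ℕ, p.Prime → ¬ ((p : ℤ) ^ 4 ∣ A ∧ (p : ℤ) ^ 6 ∣ B)

/-- The height. -/
def height (p : ℤ × ℤ) : ℤ := max (4 * |p.1| ^ 3) (27 * p.2 ^ 2)

/-- The set of all elliptic curves over `ℚ` of height at most `X`. -/
def Curves (X : ℕ) : Set (ℤ × ℤ) := {p | IsMinimal p.1 p.2 ∧ height p ≤ X}

/-- The equation `y ^ 2 = x ^ 3 + A x + B`. -/
def curve (p : ℤ × ℤ) : WeierstrassCurve ℤ := ⟨0, 0, 0, p.1, p.2⟩

/-! ### The two sides of the conjecture -/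

/-- `R` is an action of the Galois group of `F / ℚ` on the lattice `ℤ ^ g`: it is trivial on the
automorphisms that fix the image of `F` in the algebraic closure of `ℚ`. -/
def SplitBy (F : Type) [Field F] {g : ℕ} (R : Gal ℚ →* GL (Fin g) ℤ) : Prop :=
  ∃ e : F →+* AlgebraicClosure ℚ, ∀ σ : Gal ℚ, (∀ x : F, σ (e x) = e x) → R σ = 1

/-- `W(F) ⊗ ℚ_2` and `H¹_f(F, V_2 W)` are zero. -/
def BothZero {F : Type} [Field F] [NumberField F] (W : WeierstrassCurve F) : Prop :=
  (∀ x : TensorProduct ℤ W.toAffine.Point ℚ_[2], x = 0) ∧ ∀ x : H1f 2 W, x = 0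

/-- `A(ℚ) ⊗ ℚ_2` and `H¹_f(ℚ, V_2 A)` are zero, `A = W ⊗ ℤ ^ g`. -/
def BothZeroTensor {g : ℕ} (W : WeierstrassCurve ℤ) (R : Gal ℚ →* GL (Fin g) ℤ) : Prop :=
  (∀ x : TensorProduct ℤ (ptsA W R) ℚ_[2], x = 0) ∧ ∀ x : H1fA 2 W R, x = 0

/-- The conclusion for the elliptic curve `W` and the field `F`: `W(F)` has only one element, both sides
of the conjecture are zero for `W` over `F` and for `A = W ⊗ ℤ ^ g` over `ℚ`, for all the lattices of any
rank `g` with an action of the Galois group of `F / ℚ`. -/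
structure Good (F : Type) [Field F] [NumberField F] (W : WeierstrassCurve ℤ) : Prop where
  trivial : Subsingleton (W.map (Int.castRingHom F)).toAffine.Point
  zero : BothZero (W.map (Int.castRingHom F))
  tensor : ∀ (g : ℕ) (R : Gal ℚ →* GL (Fin g) ℤ), SplitBy F R → BothZeroTensor W R

theorem crv_iff (X : ℕ) (p : ℤ × ℤ) : Pool.Agent.N922.PQ.Crv X p.1 p.2 ↔ p ∈ Curves X := by
  constructor
  · rintro ⟨h1, h2, h3, h4⟩
    exact ⟨⟨h1, h2⟩, max_le h3 h4⟩
  · rintro ⟨⟨h1, h2⟩, h3⟩
    exact ⟨h1, h2, (le_max_left _ _).trans h3, (le_max_right _ _).trans h3⟩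

theorem nonempty {X : ℕ} (hX : 27 ≤ X) : ((1, 1) : ℤ × ℤ) ∈ Curves X := by
  refine ⟨⟨by norm_num, ?_⟩, ?_⟩
  · rintro p hp ⟨h, -⟩
    have h1 : ((p : ℤ)) ∣ 1 := (dvd_pow_self (p : ℤ) (by norm_num)).trans h
    have h2 : p ∣ 1 := by exact_mod_cast h1
    exact hp.one_lt.ne' (Nat.dvd_one.1 h2)
  · have : height ((1, 1) : ℤ × ℤ) = 27 := by
      simp [height]
    rw [this]
    exact_mod_cast hX

/-- from the library theorem to the conclusion -/
theorem good_of (F : Type) [Field F] [NumberField F] [hG : IsGalois ℚ F] (p : ℤ × ℤ)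
    (h1 : Subsingleton (Pool.Agent.TH115.GD.Pt (Pool.Agent.N874.PP.sW (p.1 : F) (p.2 : F)) F))
    (h2 : Pool.Agent.N874.PM.ShaR (𝓞 F) (Pool.Agent.N874.PP.sW (p.1 : F) (p.2 : F))) :
    Good F (curve p) := by
  have e1 : Pool.Agent.N874.PP.sW (p.1 : F) (p.2 : F) = (curve p).map (Int.castRingHom F) := by
    apply WeierstrassCurve.ext <;> simp [Pool.Agent.N874.PP.sW, curve]
  rw [e1] at h1 h2
  have e2 : ((curve p).map (Int.castRingHom F)).baseChange F = (curve p).map (Int.castRingHom F) := by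
    apply WeierstrassCurve.ext <;> simp [WeierstrassCurve.baseChange, curve]
  have h3 : Subsingleton ((curve p).map (Int.castRingHom F)).toAffine.Point := by
    have key : ∀ W' : WeierstrassCurve F,
        ((curve p).map (Int.castRingHom F)).baseChange F = W' → Subsingleton W'.toAffine.Point := by
      rintro W' rfl
      exact h1
    exact key _ e2
  have hfin : Finite ((curve p).map (Int.castRingHom F)).toAffine.Point := inferInstance
  have key : ∀ (k : ℕ) (s : Pool.Agent.TH841.NF.D.Sha ((curve p).map (Int.castRingHom F))),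
      (2 ^ k : ℕ) • s = 0 → (2 ^ 0 : ℕ) • s = 0 := by
    intro k s hs
    rw [Pool.Agent.T9h30.BF.brg h2 k s hs, smul_zero]
  refine ⟨h3, ⟨Pool.Agent.Y667.BKP.tensor_zero 2,
    Pool.Agent.Y667.BKP.h1f_zero Nat.prime_two hfin 0 key⟩, fun g R hR => ?_⟩
  obtain ⟨e, he⟩ := hR
  obtain ⟨h5, h6⟩ := Pool.Agent.T9h37.BK.zeroA Nat.prime_two (curve p) F hG 0 key hfin g R e he
  exact ⟨Pool.Agent.Y667.BKP.tensor_zero 2, h6⟩

/-- **Main theorem.**  For every Galois extension `F / ℚ` of degree `2 ^ n` in which `2` is unramified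
(that is, no prime ideal `𝔭` of `F` has `2 ∈ 𝔭 ^ 2`) there is `c > 0` such that for all large `X` at least
`c` times the number of all elliptic curves `E` over `ℚ` of height at most `X` have `E(F) = 0`,
`H¹_f(F, V_2 E) = 0` and, for all the lattices `ℤ ^ g` of any rank with an action of the Galois group of
`F / ℚ` and `A = E ⊗ ℤ ^ g`, `A(ℚ) ⊗ ℚ_2 = 0` and `H¹_f(ℚ, V_2 A) = 0`. -/
theorem result (F : Type) [Field F] [NumberField F] [IsGalois ℚ F] (n : ℕ)
    (hn : Module.finrank ℚ F = 2 ^ n)
    (h2 : ∀ 𝔭 : Ideal (𝓞 F), 𝔭.IsPrime → (2 : 𝓞 F) ∉ 𝔭 ^ 2) :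
    (∀ X : ℕ, (Curves X).Finite) ∧
    ∃ c : ℝ, 0 < c ∧ ∀ᶠ X : ℕ in atTop,
      0 < (Curves X).ncard ∧
      c * ((Curves X).ncard : ℝ) ≤ (({p ∈ Curves X | Good F (curve p)}).ncard : ℝ) := by
  have hset : ∀ X : ℕ, Curves X = {p : ℤ × ℤ | Pool.Agent.N922.PQ.Crv X p.1 p.2} := by
    intro X
    ext p
    exact (crv_iff X p).symm
  have hfin : ∀ X : ℕ, (Curves X).Finite := fun X => by
    rw [hset]
    exact Pool.Agent.N922.PQ.crv_fin X
  refine ⟨hfin, ?_⟩
  obtain ⟨c, hc, X₀, h⟩ := Pool.Agent.N922.PQ.finalV F (𝓞 F) hn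
    (Pool.Agent.N922.PQ.val_two_of h2)
  refine ⟨c, hc, ?_⟩
  filter_upwards [eventually_ge_atTop (max X₀ 27)] with X hX
  refine ⟨(Set.ncard_pos (hfin X)).2 ⟨_, nonempty ((le_max_right _ _).trans hX)⟩, ?_⟩
  have h1 := (h X ((le_max_left _ _).trans hX)).2
  rw [← hset] at h1
  refine h1.trans ?_
  have h3 : {p : ℤ × ℤ | Pool.Agent.N922.PQ.Crv X p.1 p.2 ∧
      Pool.Agent.N922.PQ.GoodV (M := F) (𝓞 F) p} ⊆ {p ∈ Curves X | Good F (curve p)} := by
    rintro p ⟨hp, -, hd, hsha⟩
    exact ⟨(crv_iff X p).1 hp, good_of F p hd hsha⟩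
  have h4 := Set.ncard_le_ncard h3 ((hfin X).subset fun p hp => hp.1)
  exact_mod_cast h4

end Pool.Agent.Results.MP_009fd8_ag.PositiveProportionArtin
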