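import Mathlib
import Pool.Agent.R432.JG.GalK
import Pool.Agent.T9h37.BK.Main
import Pool.Agent.T9h37.BK.Omega
import Pool.Agent.T9h31.Nb3

/-!
# The conjecture of Bloch and Kato for the motives `h¹(E_D)(1) ⊗ M`, `E_D : y² = x³ - 16 D²`, all Artin motives
# `M` over nonabelian 3-extensions of `ℚ(√-3)`, `p = 3`

Let `F = ℚ(√-3)` and let `K / F` be any Galois extension of 3-power degree, abelian or not, which is unramified
above `3` and at all the primes of `F` modulo which `-1` is a square (so only primes of norm `3` modulo `4`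
ramify), such that `K` is a Galois extension of `ℚ`.  Let `D ≠ 0` be an integer that is a cube in `K`, for example
`D = 1`, and let `E_D` be the curve `y² = x³ - 16 D²`.

Let `M = ℤ ^ g` be any lattice of any rank `g` with an action `R` of the Galois group of `K / ℚ`, and
let `A = E_D ⊗ M`, an abelian variety over `ℚ` of dimension `g`.  All the Artin motives over `ℚ` (with
rational coefficients) that are trivial over `K` are of the form `M ⊗ ℚ`, and `h¹(A^∨)(1)` is the
motive `h¹(E_D)(1) ⊗ M`.  We prove: `A(ℚ)` is finite, so `A(ℚ) ⊗ ℚ_3 = 0`, and `H¹_f(ℚ, V_3 A) = 0`.  So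
the Abel–Jacobi map of this motive is an isomorphism onto `H¹_f`, for `p = 3`.  The same is proved for
`E_D` over `K`.

Fields `K` of this kind are the `Ω = ℚ(ω, ∛l : l ∈ S)` for the finite sets `S` of integers `1` modulo `9` all of whose
prime factors are `7` modulo `12` (for example the primes `19` modulo `36`), and then one can take for `D` all the
products of elements of `S`.  If `S` consists of primes then the degree of `Ω / ℚ` is `2 · 3 ^ #S`; it is not abelian
if `S` is not empty.

`H1fA 3 W R` is the group of the classes of the continuous cocycles of the absolute Galois group of `ℚ`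
with values in `V_3 A` whose restriction to the completion of `ℚ` at every place is in the image of the
local Kummer map; this is the condition of Bloch and Kato.

The proof.  The multiplication by `√-3` on `E_1` has a kernel that is trivialized by `√-1`, and a class in its
Selmer group over `K` gives `b ∈ K(√-1)` with `b b̄` a cube and `(b)` the cube of an ideal away from some places.
`Gal(K / F)` is a 3-group and acts on these classes; if there is one that is not trivial, there is a fixed one,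
which descends to `F(√-1) = ℚ(ζ₁₂)`, where `b` is a cube as the ring of integers is principal and by an
inspection of the units at the place above `3`.  So `E_1(K)` is finite and `Ш(E_1 / K)[3] = 0`; over `K` the curves
`E_D` and `E_1` are isomorphic.  The descent from `K` to `ℚ` for `E_D ⊗ M` is in `Pool/Agent/T9h37/BK`.
-/

set_option autoImplicit false

-- Mathlib's proof that three is prime, and not the one of a file of the library
attribute [local instance high] Nat.fact_prime_three

namespace Pool.Agent.Results.MP_009fd8_ag.ThreeExtensionLattices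

open NumberField IsDedekindDomain WeierstrassCurve
open Pool.Agent.TH841.SH.D (Gal)
open Pool.Agent.Y702.A (ptsA)
open Pool.Agent.Y667.BKP (H1f)
open Pool.Agent.T9h37.BK (H1fA)
open scoped Classical

/-- The curve `E_D : y² = x³ - 16 D²`. -/
def curve (D : ℤ) : WeierstrassCurve ℤ := ⟨0, 0, 0, 0, -16 * D ^ 2⟩

/-- `K/F` is unramified above `3` and at the primes modulo which `-1` is a square: if `σ ≠ 1` lies in the
inertia group of the prime `w` of `K`, then `w` is not above `3` and `-1` is not a square modulo the prime of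
`F` below `w` -/
def GoodRam (F K : Type) [Field F] [NumberField F] [Field K] [NumberField K] [Algebra F K] : Prop :=
  ∀ (w : HeightOneSpectrum (𝓞 K)) (σ : Gal(K/F)), (∀ x : 𝓞 K, σ • x - x ∈ w.asIdeal) → σ ≠ 1 →
    (3 : 𝓞 K) ∉ w.asIdeal ∧ ∀ α : 𝓞 F, α ^ 2 + 1 ∉ w.asIdeal.under (𝓞 F)

/-- `Ω` is generated by `ω` and cube roots of the elements of `S`. -/
def Closure (S : Finset ℕ) (Ω : Type) [Field Ω] : Prop :=
  ∃ (ω : Ω) (r : ℕ → Ω), ω ^ 2 + ω + 1 = 0 ∧ (∀ l ∈ S, r l ^ 3 = (l : Ω)) ∧
    ∀ F : Subfield Ω, ω ∈ F → (∀ l ∈ S, r l ∈ F) → F = ⊤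

/-- `R` is an action of the Galois group of `K / ℚ` on the lattice `ℤ ^ g`: it is trivial on the
automorphisms that fix the image of `K` in the algebraic closure of `ℚ`. -/
def SplitBy (K : Type) [Field K] {g : ℕ} (R : Gal ℚ →* GL (Fin g) ℤ) : Prop :=
  ∃ e : K →+* AlgebraicClosure ℚ, ∀ σ : Gal ℚ, (∀ x : K, σ (e x) = e x) → R σ = 1

/-- `W(K) ⊗ ℚ_3` and `H¹_f(K, V_3 W)` are zero. -/
def BothZero {K : Type} [Field K] [NumberField K] (W : WeierstrassCurve K) : Prop :=
  (∀ x : TensorProduct ℤ W.toAffine.Point ℚ_[3], x = 0) ∧ ∀ x : H1f 3 W, x = 0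

/-- `A(ℚ) ⊗ ℚ_3` and `H¹_f(ℚ, V_3 A)` are zero, `A = W ⊗ ℤ ^ g`. -/
def BothZeroTensor {g : ℕ} (W : WeierstrassCurve ℤ) (R : Gal ℚ →* GL (Fin g) ℤ) : Prop :=
  (∀ x : TensorProduct ℤ (ptsA W R) ℚ_[3], x = 0) ∧ ∀ x : H1fA 3 W R, x = 0

/-- The assertions for `K` and `D`: `E_D(K) ⊗ ℚ_3` and `H¹_f(K, V_3 E_D)` are zero, and for all the lattices of
any rank `g` with an action of the Galois group of `K / ℚ`, `A = E_D ⊗ ℤ ^ g`, `A(ℚ) ⊗ ℚ_3` and `H¹_f(ℚ, V_3 A)` are
zero. -/
def BlochKato (K : Type) [Field K] [NumberField K] (D : ℤ) : Prop :=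
  BothZero ((curve D).map (Int.castRingHom K)) ∧
    ∀ (g : ℕ) (R : Gal ℚ →* GL (Fin g) ℤ), SplitBy K R → BothZeroTensor (curve D) R

section proof

open Pool.Agent.T9h31.Ab (Em sha_pow pts_three)
open Pool.Agent.TH841.NF (Sc)

theorem main {F K : Type} [Field F] [NumberField F] [IsCyclotomicExtension {3} ℚ F] [Field K]
    [NumberField K] [Algebra F K] [IsGalois F K] {n : ℕ} (hn : Module.finrank F K = 3 ^ n)
    (hg : GoodRam F K) (hG : IsGalois ℚ K) {D : ℤ} (hD : D ≠ 0) {r : K} (hr : r ^ 3 = (D : K)) :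
    BlochKato K D := by
  have hun := Pool.Agent.T9h31.Nb.un_of_inertia hg
  have hf := Pool.Agent.T9h31.Ab.qi_fact (Pool.Agent.T9h31.Ab.no_sq_k (F := F) (k := K) hn)
  have hr0 : r ≠ 0 := by
    rintro rfl
    rw [zero_pow (by norm_num)] at hr
    exact hD (by exact_mod_cast hr.symm)
  have S : Sc (RingHom.id K) r (Em K) ((curve D).map (Int.castRingHom K)) := by
    refine ⟨hr0, ?_, ?_, ?_, ?_, ?_⟩
    · simp [curve, Em]
    · simp [curve, Em]
    · simp [curve, Em]
    · simp [curve, Em]
    · simp only [curve, Em, WeierstrassCurve.map, RingHom.id_apply, eq_intCast]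
      push_cast
      rw [← hr]
      ring
  have h1 : Finite (Em K).toAffine.Point := (pts_three (F := F) hn hun).1
  have b2 : Finite ((curve D).map (Int.castRingHom K)).toAffine.Point :=
    Pool.Agent.T9h31.Nb.fin_iso S
  have key : ∀ (k : ℕ) (x : Pool.Agent.TH841.NF.D.Sha ((curve D).map (Int.castRingHom K))),
      (3 ^ k : ℕ) • x = 0 → (3 ^ 0 : ℕ) • x = 0 := by
    intro k x hx
    rw [Pool.Agent.T9h31.Nb.sha_iso S (3 ^ k) (fun y hy => sha_pow (F := F) hn hun k y hy) x hx,
      smul_zero]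
  refine ⟨⟨Pool.Agent.Y667.BKP.tensor_zero 3, Pool.Agent.Y667.BKP.h1f_zero Nat.prime_three b2 0 key⟩,
    fun g R hR => ?_⟩
  obtain ⟨e, he⟩ := hR
  obtain ⟨h5, h6⟩ := Pool.Agent.T9h37.BK.zeroA Nat.prime_three (curve D) K hG 0 key b2 g R e he
  exact ⟨Pool.Agent.Y667.BKP.tensor_zero 3, h6⟩

end proof

/-- **Main theorem.**  (1) Let `F = ℚ(√-3)`, `K/F` a Galois extension of 3-power degree, unramified above `3` and
at the primes modulo which `-1` is a square, such that `K/ℚ` is a Galois extension, and `D ≠ 0` an integer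
which is a cube in `K`.  Then the assertions `BlochKato` hold for `E_D : y² = x³ - 16 D²` and the lattices with an
action of the Galois group of `K / ℚ`.  (2) For every finite set `S` of integers `1` modulo `9` all of whose prime
factors are `7` modulo `12` the field `Ω = ℚ(ω, ∛l : l ∈ S)` exists, every such field is a Galois extension of `ℚ`,
of degree `2 · 3 ^ n` for some `n`, where `n = #S` if the elements of `S` are primes, and the assertions hold for `Ω`
and all the integers `D ≠ 0` that are cubes in `Ω`. -/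
theorem result :
    (∀ (F K : Type) [Field F] [NumberField F] [IsCyclotomicExtension {3} ℚ F] [Field K]
      [NumberField K] [Algebra F K] [IsGalois F K], (∃ n : ℕ, Module.finrank F K = 3 ^ n) →
      GoodRam F K → IsGalois ℚ K → ∀ D : ℤ, D ≠ 0 → (∃ r : K, r ^ 3 = (D : K)) → BlochKato K D) ∧
    ∀ S : Finset ℕ, (∀ l ∈ S, l % 9 = 1 ∧ ∀ q : ℕ, q.Prime → q ∣ l → q % 12 = 7) →
      (∃ (Ω : Type) (_ : Field Ω) (_ : NumberField Ω), Closure S Ω) ∧
      ∀ (Ω : Type) [Field Ω] [NumberField Ω], Closure S Ω →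
        IsGalois ℚ Ω ∧ (∃ n : ℕ, Module.finrank ℚ Ω = 2 * 3 ^ n) ∧
        ((∀ l ∈ S, l.Prime) → Module.finrank ℚ Ω = 2 * 3 ^ S.card) ∧
        ∀ D : ℤ, D ≠ 0 → (∃ r : Ω, r ^ 3 = (D : Ω)) → BlochKato Ω D := by
  refine ⟨?_, fun S hS => ⟨Pool.Agent.R432.JG.exists_genK S, fun Ω _ _ hΩ => ?_⟩⟩
  · intro F K _ _ _ _ _ _ _ ⟨n, hn⟩ hg hG D hD ⟨r, hr⟩
    exact main hn hg hG hD hr
  · obtain ⟨z, r, h1, h2, h3⟩ := hΩ
    have hG := Pool.Agent.T9h37.BK.galois_omega S z h1 r h2 h3
    have hcyc : IsCyclotomicExtension {3} ℚ (CyclotomicField 3 ℚ) :=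
      Pool.Agent.Y948.CTP.cyc_rat _ _ (CyclotomicField.isCyclotomicExtension 3 ℚ)
    obtain ⟨φ⟩ : Nonempty (CyclotomicField 3 ℚ →ₐ[ℚ] Ω) := by
      have hζ := IsCyclotomicExtension.zeta_spec 3 ℚ (CyclotomicField 3 ℚ)
      have hirr := Polynomial.cyclotomic.irreducible_rat (by norm_num : 0 < 3)
      have hz1 : z ≠ 1 := by
        rintro rfl
        norm_num at h1
      have hz : IsPrimitiveRoot z 3 := by
        have : Fact (Nat.Prime 3) := ⟨Nat.prime_three⟩
        have h4 := IsPrimitiveRoot.orderOf z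
        rwa [orderOf_eq_prime (Pool.Agent.T9h31.Nb.z_cube h1) hz1] at h4
      exact ⟨(hζ.embeddingsEquivPrimitiveRoots Ω hirr).symm
        ⟨_, (mem_primitiveRoots (by norm_num)).2 hz⟩⟩
    let hAl : Algebra (CyclotomicField 3 ℚ) Ω := φ.toRingHom.toAlgebra
    have ht : IsScalarTower ℚ (CyclotomicField 3 ℚ) Ω :=
      IsScalarTower.of_algebraMap_eq fun q => (φ.commutes q).symm
    have hG' : IsGalois (CyclotomicField 3 ℚ) Ω := IsGalois.tower_top_of_isGalois ℚ _ _
    have e1 : Module.finrank ℚ (CyclotomicField 3 ℚ) * Module.finrank (CyclotomicField 3 ℚ) Ω =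
        Module.finrank ℚ Ω := Module.finrank_mul_finrank ℚ _ Ω
    have e3 : Module.finrank ℚ (CyclotomicField 3 ℚ) = 2 := by
      rw [IsCyclotomicExtension.finrank (CyclotomicField 3 ℚ)
        (Polynomial.cyclotomic.irreducible_rat (by norm_num : 0 < 3))]
      decide
    obtain ⟨n, hn⟩ := Pool.Agent.T9h31.Nb.deg_three (F := CyclotomicField 3 ℚ) h1 h2 h3
    refine ⟨hG, ⟨n, by rw [← e1, e3, hn]⟩, fun hp => ?_, fun D hD ⟨x, hx⟩ => ?_⟩
    · rw [← e1, e3, Pool.Agent.T9h31.Nb.deg_primes (F := CyclotomicField 3 ℚ) h1 h2 h3 hp]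
    · exact main (F := CyclotomicField 3 ℚ) hn
        (fun w σ h4 h5 => Pool.Agent.T9h31.Nb.inertia_kum h1 hS h2 h3 w σ h4 h5) hG hD hx

end Pool.Agent.Results.MP_009fd8_ag.ThreeExtensionLattices
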